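import Pool.Agent.W_7742e_h74.Stmt
import Pool.Agent.W_7742c_h74.Arith
import Pool.Agent.W_MP_a3c811_h79.Newton

set_option autoImplicit false

noncomputable section

namespace Pool.Agent.H74F

open ComplexConjugate Polynomial

section field

variable {K : Type} [Field K] {n : ℕ}

/-- The traces of the powers are the power sums of the eigenvalues. -/
lemma trace_eq (σ : K →+* ℂ) (M : Matrix (Fin n) (Fin n) K) (k : ℕ) :
    σ (M ^ k).trace = (((M.map σ).charpoly.roots).map (fun z => z ^ k)).sum := by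
  have h1 : σ (M ^ k).trace = ((M.map σ) ^ k).trace := by
    rw [← RingHom.mapMatrix_apply, ← map_pow, RingHom.mapMatrix_apply]
    simp [Matrix.trace, map_sum]
  rw [h1, ← Matrix.trace_toLin'_eq, ← Matrix.charpoly_toLin' (M.map σ), Matrix.toLin'_pow]
  exact Pool.Agent.H79R.trace_pow_eq_roots _ k

/-- The eigenvalues are integral. -/
lemma root_integral (σ : K →+* ℂ) {M : Matrix (Fin n) (Fin n) K}
    (h : ∀ i, IsIntegral ℤ (M.charpoly.coeff i)) {z : ℂ} (hz : z ∈ (M.map σ).charpoly.roots) :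
    IsIntegral ℤ z := by
  have hmon := (M.map σ).charpoly_monic
  have hroot := (mem_roots hmon.ne_zero).1 hz
  have hcoeff : ∀ i, (M.map σ).charpoly.coeff i ∈ (algebraMap (integralClosure ℤ ℂ) ℂ).range := by
    intro i
    have h1 : (M.map σ).charpoly = M.charpoly.map σ := M.charpoly_map σ
    rw [h1, coeff_map]
    refine ⟨⟨σ (M.charpoly.coeff i), ?_⟩, rfl⟩
    exact (h i).map σ.toIntAlgHom
  obtain ⟨Q, hQ, -, hQm⟩ := lifts_and_degree_eq_and_monic
    ((lifts_iff_coeff_lifts _).2 hcoeff) hmon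
  refine isIntegral_trans (R := ℤ) (A := integralClosure ℤ ℂ) z ⟨Q, hQm, ?_⟩
  rw [eval₂_eq_eval_map, hQ]
  exact hroot

/-- The freshman's dream. -/
lemma dream {R : Type} [CommRing R] {q : ℕ} (hq : q.Prime) (m : Multiset R) :
    ∃ y : R, (m.map (fun z => z ^ q)).sum = m.sum ^ q + q * y := by
  induction m using Multiset.induction_on with
  | empty => exact ⟨0, by simp [zero_pow hq.ne_zero]⟩
  | cons a m ih =>
    obtain ⟨y, hy⟩ := ih
    obtain ⟨r, hr⟩ := exists_add_pow_prime_eq hq a m.sum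
    refine ⟨y - a * m.sum * r, ?_⟩
    rw [Multiset.map_cons, Multiset.sum_cons, Multiset.sum_cons, hr, hy]
    ring

/-- The traces of the powers are integral. -/
lemma trace_integral (σ : K →+* ℂ) {M : Matrix (Fin n) (Fin n) K}
    (h : ∀ i, IsIntegral ℤ (M.charpoly.coeff i)) (k : ℕ) : IsIntegral ℤ (σ (M ^ k).trace) := by
  rw [trace_eq]
  apply IsIntegral.multiset_sum
  intro w hw
  rw [Multiset.mem_map] at hw
  obtain ⟨z, hz, rfl⟩ := hw
  exact (root_integral σ h hz).pow k

/-- The congruence modulo a prime. -/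
lemma trace_congr (σ : K →+* ℂ) {M : Matrix (Fin n) (Fin n) K}
    (h : ∀ i, IsIntegral ℤ (M.charpoly.coeff i)) {q : ℕ} (hq : q.Prime) (m : ℕ) :
    ∃ y : ℂ, IsIntegral ℤ y ∧ σ (M ^ (m * q)).trace = σ (M ^ m).trace ^ q + q * y := by
  set R := integralClosure ℤ ℂ with hR
  set s := (M.map σ).charpoly.roots with hs
  obtain ⟨u, hu⟩ : ∃ u : Multiset R, u.map (algebraMap R ℂ) = s.map (fun z => z ^ m) := by
    refine ⟨(s.pmap (fun z hz => (⟨z, hz⟩ : R)) fun z hz => root_integral σ h hz).map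
      (fun z => z ^ m), ?_⟩
    rw [Multiset.map_map, Multiset.map_pmap]
    have : s.map (fun z => z ^ m) = s.pmap (fun z _ => z ^ m) fun z hz => root_integral σ h hz := by
      rw [Multiset.pmap_eq_map]
    rw [this]
    apply Multiset.pmap_congr
    intro a _ _ _
    rfl
  obtain ⟨y, hy⟩ := dream hq u
  refine ⟨algebraMap R ℂ y, y.2, ?_⟩
  have h1 := congrArg (algebraMap R ℂ) hy
  rw [map_multiset_sum, map_add, map_pow, map_multiset_sum, hu, map_mul, map_natCast,
    Multiset.map_map] at h1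
  rw [trace_eq, trace_eq, ← h1]
  have h2 : u.map ((algebraMap R ℂ) ∘ fun z => z ^ q) = (u.map (algebraMap R ℂ)).map (fun z => z ^ q) := by
    rw [Multiset.map_map]
    apply Multiset.map_congr rfl
    intro x _
    simp only [Function.comp_apply, map_pow]
  rw [h2, hu, Multiset.map_map]
  congr 1
  apply Multiset.map_congr rfl
  intro x _
  simp only [Function.comp_apply]
  rw [pow_mul]

end field

section nf

variable {K : Type} [Field K] [NumberField K] {n : ℕ}

omit [NumberField K] in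
lemma isIntegral_of_map (σ : K →+* ℂ) {x : K} (h : IsIntegral ℤ (σ x)) : IsIntegral ℤ x := by
  have : Function.Injective σ.toIntAlgHom := σ.injective
  exact (isIntegral_algHom_iff σ.toIntAlgHom this).1 h

/-- If `tr M ^ m` is a unit (all absolute values one) then `tr M ^ (m q)` does not vanish. -/
lemma trace_ne_zero {M : Matrix (Fin n) (Fin n) K}
    (h : ∀ i, IsIntegral ℤ (M.charpoly.coeff i)) {q : ℕ} (hq : q.Prime) (m : ℕ)
    (h1 : ∀ σ : K →+* ℂ, ‖σ (M ^ m).trace‖ = 1) : (M ^ (m * q)).trace ≠ 0 := by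
  intro h0
  have σ : K →+* ℂ := Classical.choice inferInstance
  have hint : IsIntegral ℤ (M ^ m).trace := isIntegral_of_map σ (trace_integral σ h m)
  obtain ⟨N, hN, hp⟩ := NumberField.Embeddings.pow_eq_one_of_norm_eq_one K ℂ hint h1
  obtain ⟨y, hy, hyq⟩ := trace_congr σ h hq m
  rw [h0, map_zero] at hyq
  set u := σ (M ^ m).trace with hu
  have huN : u ^ N = 1 := by rw [hu, ← map_pow, hp, map_one]
  have huint : IsIntegral ℤ u := trace_integral σ h m
  have hq0 : (q : ℂ) ≠ 0 := by exact_mod_cast hq.ne_zero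
  -- the inverse of `q` is integral
  have hN1 : N - 1 + 1 = N := by omega
  have e : (q : ℂ)⁻¹ = -(y * (u ^ (N - 1)) ^ q) := by
    have e1 : u ^ q = -(q * y) := by linear_combination -hyq
    have e2 : (u ^ (N - 1)) ^ q * u ^ q = 1 := by
      rw [← mul_pow, ← pow_succ, hN1, huN, one_pow]
    rw [e1] at e2
    field_simp
    linear_combination -e2
  have hinv : IsIntegral ℤ ((q : ℂ)⁻¹) := by
    rw [e]
    exact (hy.mul ((huint.pow _).pow _)).neg
  have hrat : IsIntegral ℤ ((q : ℚ)⁻¹) := by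
    have : ((q : ℂ)⁻¹) = algebraMap ℚ ℂ ((q : ℚ)⁻¹) := by simp
    rw [this] at hinv
    exact (isIntegral_algebraMap_iff (algebraMap ℚ ℂ).injective).1 hinv
  obtain ⟨z, hz⟩ := IsIntegrallyClosed.isIntegral_iff.1 hrat
  have hz' : (z : ℚ) * q = 1 := by
    have : (algebraMap ℤ ℚ) z = (z : ℚ) := rfl
    rw [← this, hz]
    have : (q : ℚ) ≠ 0 := by exact_mod_cast hq.ne_zero
    field_simp
  have hz'' : z * (q : ℤ) = 1 := by exact_mod_cast hz'
  have := Int.isUnit_iff.1 (IsUnit.of_mul_eq_one_right z hz'')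
  rcases this with h2 | h2
  · have : q = 1 := by exact_mod_cast h2
    exact hq.one_lt.ne' this
  · omega

/-- If the trace of `M` does not vanish and the trace of `M ^ k` vanishes then there is `j ≤ k / 2`
such that the trace of `M ^ j` is neither zero nor a unit. -/
lemma chain {M : Matrix (Fin n) (Fin n) K} (h : ∀ i, IsIntegral ℤ (M.charpoly.coeff i)) {ε : ℝ}
    (hε : ∀ t : K, IsIntegral ℤ t → t ≠ 0 → H74E.excess t = 0 ∨ ε ≤ H74E.excess t)
    (h1 : M.trace ≠ 0) (k : ℕ) (hk : 0 < k) (h0 : (M ^ k).trace = 0) :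
    ∃ j : ℕ, 0 < j ∧ 2 * j ≤ k ∧ (M ^ j).trace ≠ 0 ∧ ε ≤ H74E.excess (M ^ j).trace := by
  induction k using Nat.strong_induction_on with
  | _ k ih =>
    have hk1 : k ≠ 1 := by
      rintro rfl
      rw [pow_one] at h0
      exact h1 h0
    obtain ⟨q, hq, m, rfl⟩ := Nat.exists_prime_and_dvd hk1
    have hm : 0 < m := Nat.pos_of_mul_pos_left hk
    have hq2 := hq.two_le
    have hle : 2 * m ≤ q * m := Nat.mul_le_mul_right _ hq2
    by_cases hm0 : (M ^ m).trace = 0
    · obtain ⟨j, hj0, hj1, hj2, hj3⟩ := ih m (by omega) hm hm0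
      exact ⟨j, hj0, by omega, hj2, hj3⟩
    · have σ : K →+* ℂ := Classical.choice inferInstance
      have hint : IsIntegral ℤ (M ^ m).trace := isIntegral_of_map σ (trace_integral σ h m)
      rcases hε _ hint hm0 with h2 | h2
      · exfalso
        rw [mul_comm] at h0
        exact trace_ne_zero h hq m (H74E.norm_eq_one_of_excess hint hm0 h2) h0
      · exact ⟨m, hm, hle, hm0, h2⟩

end nf

end Pool.Agent.H74F
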