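import Pool.Agent.W_7742e_h74.Conv

set_option autoImplicit false

noncomputable section

namespace Pool.Agent.H74F

open Filter Topology ComplexConjugate
open Pool.Agent.H74E (pk pk_nonneg pk_eq pk_anti summable_bad exists_gap excess)

namespace SatakeSystem

variable {K : Type} [Field K] [NumberField K] {n : ℕ} (π : SatakeSystem K n)

open Classical in
/-- The bad primes and the primes with vanishing trace. -/
def b0 (x : Nat.Primes × ℕ) : ℝ := if π.Good x.1 ∧ (π.A x.1).trace ≠ 0 then 0 else 1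

open Classical in
/-- The prime powers with vanishing trace for the other primes. -/
def b1 (x : Nat.Primes × ℕ) : ℝ :=
  if π.Good x.1 ∧ (π.A x.1).trace ≠ 0 ∧ (π.A x.1 ^ (x.2 + 1)).trace = 0 then 1 else 0

variable {π}

lemma b0_nonneg (x : Nat.Primes × ℕ) : 0 ≤ π.b0 x := by
  unfold b0
  split_ifs
  · exact le_rfl
  · exact zero_le_one

lemma b1_nonneg (x : Nat.Primes × ℕ) : 0 ≤ π.b1 x := by
  unfold b1
  split_ifs
  · exact zero_le_one
  · exact le_rfl

lemma b_le_add (x : Nat.Primes × ℕ) : π.old.b x ≤ π.b0 x + π.b1 x := by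
  by_cases h1 : π.Good x.1 ∧ (π.A x.1).trace ≠ 0
  · by_cases h2 : (π.A x.1 ^ (x.2 + 1)).trace = 0
    · have e : π.b1 x = 1 := by
        unfold b1
        rw [if_pos ⟨h1.1, h1.2, h2⟩]
      have := H74E.SatakeSystem.b_le (π := π.old) x
      have := b0_nonneg (π := π) x
      linarith
    · have e : π.old.b x = 0 := by
        unfold H74E.SatakeSystem.b
        rw [if_pos ⟨h1.1, h2⟩]
      have := b0_nonneg (π := π) x
      have := b1_nonneg (π := π) x
      linarith
  · have e : π.b0 x = 1 := by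
      unfold b0
      rw [if_neg h1]
    have := H74E.SatakeSystem.b_le (π := π.old) x
    have := b1_nonneg (π := π) x
    linarith

lemma pk_le_pow (s : ℝ) (x : Nat.Primes × ℕ) : pk s x ≤ (((x.1 : ℕ) : ℝ) ^ (-s)) ^ (x.2 + 1) := by
  have := pk_eq s x.1 x.2
  rw [show (x.1, x.2) = x from rfl] at this
  rw [this]
  have h1 : (0 : ℝ) ≤ (((x.1 : ℕ) : ℝ) ^ (-s)) ^ (x.2 + 1) := by positivity
  exact div_le_self h1 (by linarith [(Nat.cast_nonneg x.2 : (0 : ℝ) ≤ (x.2 : ℝ))])

lemma rpow_le_two (p : Nat.Primes) {τ : ℝ} (hτ : 0 ≤ τ) :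
    ((p : ℕ) : ℝ) ^ (-τ) ≤ (2 : ℝ) ^ (-τ) := by
  have hp : (2 : ℝ) ≤ ((p : ℕ) : ℝ) := by exact_mod_cast p.2.two_le
  exact Real.rpow_le_rpow_of_nonpos (by norm_num) hp (by linarith)

/-- The series over the primes with vanishing trace. -/
lemma summable_b0 {x0 : ℝ} (hx0 : 0 < x0)
    (hz : Summable fun p : {p : ℕ // π.Good p ∧ (π.A p).trace = 0} => ((p : ℕ) : ℝ) ^ (-x0)) :
    ∀ s, x0 ≤ s → Summable fun x => π.b0 x * pk s x := by
  classical
  intro s hs
  have hs0 : 0 < s := by linarith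
  set Z : Nat.Primes → ℝ := fun p => if π.Good p ∧ (π.A p).trace = 0 then
    ((p : ℕ) : ℝ) ^ (-x0) else 0 with hZ
  have hZs : Summable Z := by
    have h1 := (summable_subtype_iff_indicator (s := {p : ℕ | π.Good p ∧ (π.A p).trace = 0})
      (f := fun p : ℕ => (p : ℝ) ^ (-x0))).1 hz
    have h2 := h1.comp_injective (i := fun p : Nat.Primes => (p : ℕ)) Subtype.val_injective
    refine h2.congr fun p => ?_
    rw [hZ]
    simp only [Function.comp_apply, Set.indicator_apply, Set.mem_ofPred_eq]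
  have hZn : ∀ p, 0 ≤ Z p := by
    intro p
    rw [hZ]
    simp only
    split_ifs
    · positivity
    · exact le_rfl
  have h2lt : (2 : ℝ) ^ (-s) < 1 := Real.rpow_lt_one_of_one_lt_of_neg (by norm_num) (by linarith)
  have h2pos : (0 : ℝ) < (2 : ℝ) ^ (-s) := by positivity
  have s1 := summable_bad π.level_pos hs0
  have s2 : Summable fun x : Nat.Primes × ℕ => Z x.1 * ((2 : ℝ) ^ (-s)) ^ x.2 :=
    hZs.mul_of_nonneg (summable_geometric_of_lt_one h2pos.le h2lt) hZn (fun k => by positivity)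
  refine Summable.of_nonneg_of_le (fun x => mul_nonneg (b0_nonneg x) (pk_nonneg s x)) ?_ (s1.add s2)
  intro x
  have n1 : 0 ≤ (if (x.1 : ℕ) ∣ π.level then (1 : ℝ) else 0) * pk s x := by
    have := pk_nonneg s x
    split_ifs <;> simp [this]
  have n2 : 0 ≤ Z x.1 * ((2 : ℝ) ^ (-s)) ^ x.2 := mul_nonneg (hZn _) (by positivity)
  by_cases h1 : π.Good x.1 ∧ (π.A x.1).trace ≠ 0
  · have e : π.b0 x = 0 := by
      unfold b0
      rw [if_pos h1]
    rw [e, zero_mul]
    linarith
  have e : π.b0 x = 1 := by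
    unfold b0
    rw [if_neg h1]
  rw [e, one_mul]
  by_cases h2 : (x.1 : ℕ) ∣ π.level
  · rw [if_pos h2, one_mul] at *
    linarith
  · have hgood : π.Good x.1 := ⟨x.1.2, h2⟩
    have ht : (π.A x.1).trace = 0 := by
      by_contra hcon
      exact h1 ⟨hgood, hcon⟩
    rw [if_neg h2, zero_mul, zero_add]
    have hZx : Z x.1 = ((x.1 : ℕ) : ℝ) ^ (-x0) := by
      rw [hZ]
      simp only
      rw [if_pos ⟨hgood, ht⟩]
    refine (pk_le_pow s x).trans ?_
    rw [pow_succ, mul_comm, hZx]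
    refine mul_le_mul ?_ (pow_le_pow_left₀ (by positivity) (rpow_le_two x.1 hs0.le) _)
      (by positivity) (by positivity)
    exact Real.rpow_le_rpow_of_exponent_le (by exact_mod_cast x.1.2.one_lt.le) (by linarith)

/-- The series over the other zeros is controlled by the excess at the double. -/
lemma summable_b1 {s : ℝ} (hs : 0 < s) (hc : Summable fun x => π.old.c x * pk (2 * s) x) :
    Summable fun x => π.b1 x * pk s x := by
  classical
  obtain ⟨ε, hε, hgap⟩ := exists_gap K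
  have key : ∀ x : Nat.Primes × ℕ, π.b1 x = 1 → ∃ j : ℕ, 2 * (j + 1) ≤ x.2 + 1 ∧
      ε ≤ π.old.c (x.1, j) := by
    intro x hx
    unfold b1 at hx
    split_ifs at hx with h
    · obtain ⟨hg, h1, h2⟩ := h
      obtain ⟨j, hj0, hj1, hj2, hj3⟩ := chain (π.integral x.1 hg.1 hg.2) hgap h1 (x.2 + 1)
        (Nat.succ_pos _) h2
      refine ⟨j - 1, by omega, ?_⟩
      have hj : j - 1 + 1 = j := by omega
      have ht : π.old.t (x.1, j - 1) = (π.A x.1 ^ j).trace := by
        unfold H74E.SatakeSystem.t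
        rw [hj]
        rfl
      unfold H74E.SatakeSystem.c
      rw [ht, if_pos ⟨hg, hj2⟩]
      exact hj3
    · exact absurd hx (by norm_num)
  have h2lt : (2 : ℝ) ^ (-s) < 1 := Real.rpow_lt_one_of_one_lt_of_neg (by norm_num) (by linarith)
  have h2pos : (0 : ℝ) < (2 : ℝ) ^ (-s) := by positivity
  have hG : Summable fun y : (Nat.Primes × ℕ) × ℕ =>
      (ε⁻¹ * (π.old.c y.1 * pk (2 * s) y.1)) * ((2 : ℝ) ^ (-s)) ^ y.2 :=
    Summable.mul_of_nonneg (f := fun y => ε⁻¹ * (π.old.c y * pk (2 * s) y))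
      (g := fun i : ℕ => ((2 : ℝ) ^ (-s)) ^ i)
      (hc.mul_left ε⁻¹) (summable_geometric_of_lt_one h2pos.le h2lt)
      (fun y => mul_nonneg (by positivity) (mul_nonneg (H74E.SatakeSystem.c_nonneg _)
        (pk_nonneg _ _))) (fun i => by positivity)
  -- the injection
  choose! J hJ1 hJ2 using key
  set φ : {x : Nat.Primes × ℕ // π.b1 x = 1} → (Nat.Primes × ℕ) × ℕ := fun x =>
    ((x.1.1, J x.1), x.1.2 + 1 - 2 * (J x.1 + 1)) with hφ
  have hinj : Function.Injective φ := by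
    intro x y hxy
    have e1 := congrArg (fun z => z.1.1) hxy
    have e2 := congrArg (fun z => z.1.2) hxy
    have e3 := congrArg (fun z => z.2) hxy
    simp only [hφ] at e1 e2 e3
    have f1 := hJ1 x.1 x.2
    have f2 := hJ1 y.1 y.2
    apply Subtype.ext
    apply Prod.ext e1
    omega
  have hsub : Summable fun x : {x : Nat.Primes × ℕ // π.b1 x = 1} => pk s x.1 := by
    refine Summable.of_nonneg_of_le (fun x => pk_nonneg s _) ?_ (hG.comp_injective hinj)
    intro x
    obtain ⟨⟨p, k⟩, hx⟩ := x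
    have f1 := hJ1 _ hx
    have f2 := hJ2 _ hx
    simp only [Function.comp_apply, hφ]
    set j := J (p, k) with hj
    simp only at f1 f2
    have hcnn : 0 ≤ π.old.c (p, j) := H74E.SatakeSystem.c_nonneg _
    have hp : (0 : ℝ) < ((p : ℕ) : ℝ) := by exact_mod_cast p.2.pos
    have hpj : pk s (p, k) ≤ pk (2 * s) (p, j) * ((2 : ℝ) ^ (-s)) ^ (k + 1 - 2 * (j + 1)) := by
      rw [pk_eq, pk_eq]
      have e1 : (((p : ℕ) : ℝ) ^ (-s)) ^ (k + 1) = (((p : ℕ) : ℝ) ^ (-(2 * s))) ^ (j + 1) *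
          (((p : ℕ) : ℝ) ^ (-s)) ^ (k + 1 - 2 * (j + 1)) := by
        have : (((p : ℕ) : ℝ) ^ (-(2 * s))) = (((p : ℕ) : ℝ) ^ (-s)) ^ 2 := by
          rw [← Real.rpow_natCast, ← Real.rpow_mul hp.le]
          congr 1
          push_cast
          ring
        rw [this, ← pow_mul, ← pow_add]
        congr 1
        omega
      rw [e1, mul_div_assoc, div_eq_mul_inv, div_eq_mul_inv, mul_assoc]
      have hA : (0 : ℝ) ≤ (((p : ℕ) : ℝ) ^ (-(2 * s))) ^ (j + 1) := by positivity
      refine mul_le_mul_of_nonneg_left ?_ hA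
      have hB : (((p : ℕ) : ℝ) ^ (-s)) ^ (k + 1 - 2 * (j + 1)) ≤
          ((2 : ℝ) ^ (-s)) ^ (k + 1 - 2 * (j + 1)) :=
        pow_le_pow_left₀ (by positivity) (rpow_le_two p hs.le) _
      have hC : ((k : ℝ) + 1)⁻¹ ≤ ((j : ℝ) + 1)⁻¹ := by
        apply inv_anti₀ (by positivity)
        have : j + 1 ≤ k + 1 := by omega
        exact_mod_cast this
      calc (((p : ℕ) : ℝ) ^ (-s)) ^ (k + 1 - 2 * (j + 1)) * ((k : ℝ) + 1)⁻¹
          ≤ ((2 : ℝ) ^ (-s)) ^ (k + 1 - 2 * (j + 1)) * ((j : ℝ) + 1)⁻¹ :=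
            mul_le_mul hB hC (by positivity) (by positivity)
        _ = _ := mul_comm _ _
    refine hpj.trans ?_
    refine mul_le_mul_of_nonneg_right ?_ (by positivity)
    have h1 : 1 ≤ ε⁻¹ * π.old.c (p, j) := by
      rw [inv_mul_eq_div, one_le_div hε]
      exact f2
    have h2 := pk_nonneg (2 * s) (p, j)
    calc pk (2 * s) (p, j) = 1 * pk (2 * s) (p, j) := (one_mul _).symm
      _ ≤ (ε⁻¹ * π.old.c (p, j)) * pk (2 * s) (p, j) := mul_le_mul_of_nonneg_right h1 h2
      _ = _ := by ring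
  have h3 := (summable_subtype_iff_indicator (s := {x : Nat.Primes × ℕ | π.b1 x = 1})
    (f := fun x => pk s x)).1 hsub
  refine h3.congr fun x => ?_
  simp only [Set.indicator_apply, Set.mem_ofPred_eq]
  split_ifs with h
  · rw [h, one_mul]
  · have : π.b1 x = 0 := by
      unfold b1 at h ⊢
      split_ifs at h ⊢ with h'
      · exact absurd rfl h
      · rfl
    rw [this, zero_mul]

lemma summable_b_of {s : ℝ} (hs : 0 < s) (h0 : Summable fun x => π.b0 x * pk s x)
    (hc : Summable fun x => π.old.c x * pk (2 * s) x) :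
    Summable fun x => π.old.b x * pk s x := by
  have h1 := summable_b1 hs hc
  refine Summable.of_nonneg_of_le
    (fun x => mul_nonneg (H74E.SatakeSystem.b_nonneg x) (pk_nonneg s x)) (fun x => ?_) (h0.add h1)
  rw [← add_mul]
  exact mul_le_mul_of_nonneg_right (b_le_add x) (pk_nonneg s x)

/-- The bootstrap. -/
lemma boot_aux (h : π.old.PosC) {x0 : ℝ} (hx0 : 0 < x0)
    (hb : ∀ s, x0 ≤ s → Summable fun x => π.b0 x * pk s x) (j : ℕ) :
    ∀ s, x0 < s → (1 / 2 : ℝ) ^ j < s → Summable fun x => π.old.c x * pk s x := by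
  induction j with
  | zero =>
    intro s _ hs
    rw [pow_zero] at hs
    exact h.one s hs
  | succ j ih =>
    intro s hs hj
    rcases lt_or_ge 1 s with h1 | h1
    · exact h.one s h1
    · have hs0 : 0 < s := by linarith
      refine h.closed hs0 h1 (fun s' hs' => ?_) s le_rfl
      refine summable_b_of (by linarith) (hb s' (by linarith)) (ih (2 * s') (by linarith) ?_)
      rw [pow_succ] at hj
      linarith

lemma boot (h : π.old.PosC) {x0 : ℝ} (hx0 : 0 < x0)
    (hb : ∀ s, x0 ≤ s → Summable fun x => π.b0 x * pk s x) :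
    ∀ s, x0 < s → Summable fun x => π.old.c x * pk s x := by
  intro s hs
  obtain ⟨j, hj⟩ := exists_pow_lt_of_lt_one (show 0 < s by linarith) (show (1 / 2 : ℝ) < 1 by norm_num)
  exact boot_aux h hx0 hb j s hs hj

lemma boot_b (h : π.old.PosC) {x0 : ℝ} (hx0 : 0 < x0)
    (hb : ∀ s, x0 ≤ s → Summable fun x => π.b0 x * pk s x) :
    ∀ s, x0 ≤ s → Summable fun x => π.old.b x * pk s x := fun s hs =>
  summable_b_of (by linarith) (hb s hs) (boot h hx0 hb (2 * s) (by linarith))

lemma boot_closed (h : π.old.PosC) {x0 : ℝ} (hx0 : 0 < x0) (hx1 : x0 ≤ 1)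
    (hb : ∀ s, x0 ≤ s → Summable fun x => π.b0 x * pk s x) :
    ∀ s, x0 ≤ s → Summable fun x => π.old.c x * pk s x :=
  h.closed hx0 hx1 (boot_b h hx0 hb)

end SatakeSystem

end Pool.Agent.H74F
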