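import Pool.Agent.W_7742e_h74.Alg
import Pool.Agent.W_7742c_h74.Burnside

set_option autoImplicit false

noncomputable section

namespace Pool.Agent.H74F

open ComplexConjugate

namespace SatakeSystem

variable {K : Type} [Field K] [NumberField K] {n : ℕ} (π : SatakeSystem K n)

omit [NumberField K] in
lemma zpow_neg_nat {M : Matrix (Fin n) (Fin n) K} (hM : M.det ≠ 0) (m : ℕ) :
    M ^ (-(m : ℤ)) = M⁻¹ ^ m := by
  have hM' : IsUnit M.det := isUnit_iff_ne_zero.2 hM
  rw [Matrix.zpow_neg hM', zpow_natCast, Matrix.inv_pow']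

/-- The system in the older sense. -/
def old : H74E.SatakeSystem K n where
  level := π.level
  level_pos := π.level_pos
  A := π.A
  det_ne_zero := π.det_ne_zero
  integral := by
    intro p hp hN k
    have σ : K →+* ℂ := Classical.choice inferInstance
    apply isIntegral_of_map σ
    obtain ⟨m, rfl | rfl⟩ := k.eq_nat_or_neg
    · rw [zpow_natCast]
      exact trace_integral σ (π.integral p hp hN) m
    · rw [zpow_neg_nat (π.det_ne_zero p hp hN), ← π.unitary p hp hN]
      have h1 := trace_integral σ (π.integral p hp hN) m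
      exact h1.map (starRingEnd ℂ).toIntAlgHom
  unitary := by
    intro p hp hN k σ
    obtain ⟨m, rfl | rfl⟩ := k.eq_nat_or_neg
    · rw [zpow_natCast, zpow_neg_nat (π.det_ne_zero p hp hN)]
      exact π.unitary p hp hN m σ
    · rw [neg_neg, zpow_natCast, zpow_neg_nat (π.det_ne_zero p hp hN), ← π.unitary p hp hN,
        Complex.conj_conj]

variable {π}

lemma old_good {p : ℕ} : π.old.Good p ↔ π.Good p := Iff.rfl

lemma old_coeff (σ : K →+* ℂ) (p k : ℕ) : π.old.coeff σ p k = π.coeff σ p k := by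
  unfold H74E.SatakeSystem.coeff coeff
  rfl

lemma sum_ofReal {σ : K →+* ℂ} (s : ℝ) :
    (∑' x : Nat.Primes × ℕ, (π.coeff σ x.1 (x.2 + 1) : ℂ) / (x.1 : ℂ) ^ ((x.2 + 1) * (s : ℂ))) =
      ((∑' x : Nat.Primes × ℕ, π.coeff σ x.1 (x.2 + 1) / (x.1 : ℝ) ^ ((x.2 + 1) * s) : ℝ) : ℂ) := by
  rw [Complex.ofReal_tsum]
  refine tsum_congr fun x => ?_
  have hp : (0 : ℝ) ≤ ((x.1 : ℕ) : ℝ) := by positivity
  rw [Complex.ofReal_div, Complex.ofReal_cpow hp]
  push_cast
  rfl

/-- The real analytic version of the hypothesis. -/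
lemma RankinSelberg.old {g : (K →+* ℂ) → ℂ → ℂ} (h : π.RankinSelberg g) (σ : K →+* ℂ) :
    π.old.RankinSelberg σ := by
  refine ⟨?_, fun s => (g σ s).re, ?_, ?_⟩
  · simp only [old_coeff]
    exact h.summable σ
  · intro s hs
    exact (h.analytic σ s (by simpa using hs)).re_ofReal
  · intro s hs
    simp only [old_coeff]
    rw [h.eq σ s (by simpa using hs), sum_ofReal, ← Complex.ofReal_exp, ← Complex.ofReal_one,
      ← Complex.ofReal_sub, ← Complex.ofReal_mul, Complex.ofReal_re]

end SatakeSystem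

end Pool.Agent.H74F
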