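import Pool.Agent.W_7742e_h74.Boot

set_option autoImplicit false

noncomputable section

namespace Pool.Agent.H74F

open Filter Topology ComplexConjugate
open Pool.Agent.H74E (pk pk_nonneg pk_eq pk_anti summable_bad exists_gap excess)

namespace SatakeSystem

variable {K : Type} [Field K] [NumberField K] {n : ℕ} {π : SatakeSystem K n}

/-- The divergence at `1 / (n + 1)`. -/
theorem partA (hn : 2 ≤ n) (h : π.old.PosC) : π.Diverges (1 / ((n : ℝ) + 1)) := by
  classical
  have hm' : (0 : ℝ) < (n : ℝ) + 1 := by positivity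
  have hσ0 : (0 : ℝ) < 1 / ((n : ℝ) + 1) := by positivity
  have hσ1 : 1 / ((n : ℝ) + 1) ≤ 1 := by
    rw [div_le_one hm']
    linarith [(Nat.cast_nonneg n : (0 : ℝ) ≤ n)]
  intro hz
  have hc := boot_closed h hσ0 hσ1 (summable_b0 hσ0 hz)
  -- the slices
  have hslice : ∀ k : ℕ, k + 1 ≤ n + 1 →
      Summable fun p : Nat.Primes => π.old.c (p, k) * (1 / (p : ℝ)) := by
    intro k hk
    have hk' : (0 : ℝ) < (k : ℝ) + 1 := by positivity
    have h1 := hc (1 / ((k : ℝ) + 1)) (by
      apply one_div_le_one_div_of_le hk'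
      exact_mod_cast hk)
    have h2 := h1.comp_injective (i := fun p : Nat.Primes => (p, k))
      (fun p q hpq => (Prod.mk.inj hpq).1)
    refine (h2.mul_left ((k : ℝ) + 1)).congr fun p => ?_
    simp only [Function.comp_apply, pk]
    have hp : (0 : ℝ) < ((p : ℕ) : ℝ) := by exact_mod_cast p.2.pos
    rw [show 1 / ((k : ℝ) + 1) * (((k : ℝ) + 1) * Real.log (p : ℕ)) = Real.log (p : ℕ) by
      field_simp, Real.exp_neg, Real.exp_log hp]
    field_simp
  obtain ⟨ε, hε, hgap⟩ := exists_gap K
  -- the primes with zeros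
  set Z : Nat.Primes → ℝ := fun p => if π.Good p ∧ (π.A p).trace = 0 then
    ((p : ℕ) : ℝ) ^ (-(1 / ((n : ℝ) + 1))) else 0 with hZ
  have hZs : Summable Z := by
    have h1 := (summable_subtype_iff_indicator (s := {p : ℕ | π.Good p ∧ (π.A p).trace = 0})
      (f := fun p : ℕ => (p : ℝ) ^ (-(1 / ((n : ℝ) + 1))))).1 hz
    have h2 := h1.comp_injective (i := fun p : Nat.Primes => (p : ℕ)) Subtype.val_injective
    refine h2.congr fun p => ?_
    rw [hZ]
    simp only [Function.comp_apply, Set.indicator_apply, Set.mem_ofPred_eq]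
  have hZn : ∀ p, 0 ≤ Z p := by
    intro p
    rw [hZ]
    simp only
    split_ifs
    · positivity
    · exact le_rfl
  -- the bad primes
  have hbad : Summable fun p : Nat.Primes => if (p : ℕ) ∣ π.level then (1 / (p : ℝ)) else 0 := by
    apply summable_of_hasFiniteSupport
    refine Set.Finite.subset (s := (fun p : Nat.Primes => (p : ℕ)) ⁻¹'
      (π.level.primeFactors : Set ℕ)) ?_ ?_
    · exact Set.Finite.preimage (Subtype.val_injective.injOn) (Finset.finite_toSet _)
    · intro p hp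
      by_contra hcon
      apply hp
      have : ¬ (p : ℕ) ∣ π.level := fun h => hcon (by
        simp only [Set.mem_preimage, Finset.mem_coe, Nat.mem_primeFactors]
        exact ⟨p.2, h, π.level_pos.ne'⟩)
      simp [this]
  have hsum : Summable fun p : Nat.Primes => ∑ k ∈ Finset.range (n + 1),
      ε⁻¹ * (π.old.c (p, k) * (1 / (p : ℝ))) :=
    summable_sum fun k hk => (hslice k (by have := Finset.mem_range.1 hk; omega)).mul_left _
  apply Nat.Primes.not_summable_one_div
  refine Summable.of_nonneg_of_le (fun p => by positivity) ?_ ((hbad.add hZs).add hsum)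
  intro p
  have hp : (0 : ℝ) < ((p : ℕ) : ℝ) := by exact_mod_cast p.2.pos
  have h1p : (1 : ℝ) ≤ ((p : ℕ) : ℝ) := by exact_mod_cast p.2.one_lt.le
  have n1 : 0 ≤ (if (p : ℕ) ∣ π.level then (1 / (p : ℝ)) else 0) := by
    split_ifs
    · positivity
    · exact le_rfl
  have n3 : ∀ k ∈ Finset.range (n + 1), 0 ≤ ε⁻¹ * (π.old.c (p, k) * (1 / (p : ℝ))) := fun k _ =>
    mul_nonneg (by positivity) (mul_nonneg (H74E.SatakeSystem.c_nonneg _) (by positivity))
  have n3' := Finset.sum_nonneg n3
  by_cases hd : (p : ℕ) ∣ π.level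
  · have e1 : (if (p : ℕ) ∣ π.level then (1 / (p : ℝ)) else 0) = 1 / (p : ℝ) := if_pos hd
    have := hZn p
    rw [e1]
    linarith
  have hg : π.Good p := ⟨p.2, hd⟩
  by_cases hzp : (π.A p).trace = 0
  · have e1 : Z p = ((p : ℕ) : ℝ) ^ (-(1 / ((n : ℝ) + 1))) := by
      rw [hZ]
      simp only
      rw [if_pos ⟨hg, hzp⟩]
    have e2 : 1 / ((p : ℕ) : ℝ) ≤ Z p := by
      rw [e1, one_div, ← Real.rpow_neg_one]
      exact Real.rpow_le_rpow_of_exponent_le h1p (by linarith)
    linarith
  -- a good prime whose trace does not vanish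
  obtain ⟨k, hk, hne, hpos⟩ : ∃ k, k + 1 ≤ n + 1 ∧ π.old.t (p, k) ≠ 0 ∧
      ε ≤ excess (π.old.t (p, k)) := by
    by_contra hcon
    push Not at hcon
    have σ : K →+* ℂ := Classical.choice inferInstance
    have ht : ∀ k, 0 < k → π.old.t (p, k - 1) = (π.A p ^ k).trace := by
      intro k hk0
      unfold H74E.SatakeSystem.t
      rw [show (p, k - 1).2 + 1 = k by simp only; omega]
      rfl
    have hnz : ∀ k, 0 < k → k ≤ n + 1 → (π.A p ^ k).trace ≠ 0 := by
      intro k hk0 hk1 h0
      obtain ⟨j, hj0, hj1, hj2, hj3⟩ := chain (π.integral p hg.1 hg.2) hgap hzp k hk0 h0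
      have := hcon (j - 1) (by omega)
      rw [ht j hj0] at this
      exact absurd hj3 (not_le.2 (this hj2))
    suffices n ≤ 1 by omega
    refine H74E.toeplitz (π.det_ne_zero p hg.1 hg.2) σ (fun k => π.old.unitary p hg.1 hg.2 k σ)
      fun k hk0 hkm => le_of_eq ?_
    have hne := hnz k hk0 hkm
    have hint : IsIntegral ℤ (π.A p ^ k).trace :=
      isIntegral_of_map σ (trace_integral σ (π.integral p hg.1 hg.2) k)
    have h1 := hcon (k - 1) (by omega)
    rw [ht k hk0] at h1
    rcases hgap _ hint hne with h2 | h2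
    · exact H74E.norm_eq_one_of_excess hint hne h2 σ
    · exact absurd h2 (not_le.2 (h1 hne))
  have hcpk : π.old.c (p, k) = excess (π.old.t (p, k)) := by
    unfold H74E.SatakeSystem.c
    rw [if_pos ⟨hg, hne⟩]
  have h2 := Finset.single_le_sum n3 (Finset.mem_range.2 (by omega : k < n + 1))
  have h3 : 1 / ((p : ℕ) : ℝ) ≤ ε⁻¹ * (π.old.c (p, k) * (1 / (p : ℝ))) := by
    rw [hcpk, ← mul_assoc]
    have : 1 ≤ ε⁻¹ * excess (π.old.t (p, k)) := by
      rw [inv_mul_eq_div, one_le_div hε]
      exact hpos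
    have hpp : (0 : ℝ) ≤ 1 / ((p : ℕ) : ℝ) := by positivity
    nlinarith
  have := hZn p
  linarith

end SatakeSystem

end Pool.Agent.H74F
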