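import Pool.Agent.W_7742e_h74.PartA

set_option autoImplicit false

noncomputable section

namespace Pool.Agent.H74F

open Filter Topology ComplexConjugate
open Pool.Agent.H74E (pk pk_nonneg pk_eq pk_anti summable_pk)

/-- The complex weights. -/
def pkC (s : ℂ) (x : Nat.Primes × ℕ) : ℂ :=
  ((x.2 : ℂ) + 1)⁻¹ * Complex.exp (-(s * (((x.2 : ℂ) + 1) * Real.log x.1)))

lemma norm_pkC (s : ℂ) (x : Nat.Primes × ℕ) : ‖pkC s x‖ = pk s.re x := by
  unfold pkC pk
  have h1 : ‖((x.2 : ℂ) + 1)⁻¹‖ = ((x.2 : ℝ) + 1)⁻¹ := by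
    rw [norm_inv]
    congr 1
    rw [show ((x.2 : ℂ) + 1) = (((x.2 : ℝ) + 1 : ℝ) : ℂ) by push_cast; rfl,
      Complex.norm_of_nonneg (by positivity)]
  rw [norm_mul, h1, Complex.norm_exp]
  congr 2
  rw [show (-(s * (((x.2 : ℂ) + 1) * (Real.log x.1 : ℂ)))) =
    -(s * ((((x.2 : ℝ) + 1) * Real.log x.1 : ℝ) : ℂ)) by push_cast; rfl, Complex.neg_re,
    Complex.re_mul_ofReal]

lemma pkC_differentiable (x : Nat.Primes × ℕ) : Differentiable ℂ fun s => pkC s x := by
  unfold pkC
  fun_prop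

lemma pkC_eq (s : ℂ) (p : Nat.Primes) (k : ℕ) :
    pkC s (p, k) = (((p : ℕ) : ℂ) ^ (-s)) ^ (k + 1) / ((k : ℂ) + 1) := by
  unfold pkC
  have hp : ((p : ℕ) : ℂ) ≠ 0 := by exact_mod_cast p.2.ne_zero
  rw [Complex.cpow_def_of_ne_zero hp, ← Complex.exp_nat_mul, div_eq_inv_mul, Complex.natCast_log]
  congr 2
  push_cast
  ring

lemma summable_mul_pkC {f : Nat.Primes × ℕ → ℝ} (hf : ∀ x, 0 ≤ f x) {s : ℂ}
    (h : Summable fun x => f x * pk s.re x) : Summable fun x => (f x : ℂ) * pkC s x := by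
  apply Summable.of_norm
  refine h.congr fun x => ?_
  rw [norm_mul, norm_pkC, Complex.norm_of_nonneg (hf x)]

lemma zeta_pkC {s : ℂ} (hs : 1 < s.re) : riemannZeta s = Complex.exp (∑' x, pkC s x) := by
  have hsum : Summable fun x => pkC s x := by
    apply Summable.of_norm
    simp only [norm_pkC]
    exact summable_pk hs
  rw [← riemannZeta_eulerProduct_exp_log hs, hsum.tsum_prod]
  congr 1
  refine tsum_congr fun p => ?_
  have hlt : ‖((p : ℕ) : ℂ) ^ (-s)‖ < 1 := by
    rw [Complex.norm_natCast_cpow_of_pos p.2.pos, Complex.neg_re]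
    exact Real.rpow_lt_one_of_one_lt_of_neg (by exact_mod_cast p.2.one_lt) (by linarith)
  simp only [pkC_eq]
  exact (Complex.hasSum_taylorSeries_neg_log' hlt).tsum_eq.symm

/-- Analyticity of the series. -/
lemma series_analytic {f : Nat.Primes × ℕ → ℝ} (hf : ∀ x, 0 ≤ f x) {x0 : ℝ}
    (h : ∀ s : ℝ, x0 < s → Summable fun x => f x * pk s x) :
    ∀ s : ℂ, x0 < s.re → AnalyticAt ℂ (fun s => ∑' x, (f x : ℂ) * pkC s x) s := by
  intro s hs
  set y : ℝ := (x0 + s.re) / 2 with hy
  have hy1 : x0 < y := by rw [hy]; linarith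
  have hy2 : y < s.re := by rw [hy]; linarith
  have hopen : IsOpen {z : ℂ | y < z.re} := isOpen_lt continuous_const Complex.continuous_re
  have hd := Complex.differentiableOn_tsum_of_summable_norm (u := fun x => f x * pk y x)
    (F := fun x z => (f x : ℂ) * pkC z x) (h y hy1)
    (fun x => ((differentiable_const _).mul (pkC_differentiable x)).differentiableOn) hopen
    (fun x z hz => by
      rw [norm_mul, norm_pkC, Complex.norm_of_nonneg (hf x)]
      exact mul_le_mul_of_nonneg_left (pk_anti (le_of_lt hz) x) (hf x))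
  exact hd.analyticAt (hopen.mem_nhds hy2)

/-- The entire function `(s - 1) ζ(s)`. -/
def zC : ℂ → ℂ := Function.update (fun s => (s - 1) * riemannZeta s) 1 1

lemma zC_of_ne {s : ℂ} (hs : s ≠ 1) : zC s = (s - 1) * riemannZeta s := by
  unfold zC
  rw [Function.update_of_ne hs]

lemma zC_analytic (s : ℂ) : AnalyticAt ℂ zC s := by
  have hd : ∀ w : ℂ, w ≠ 1 → DifferentiableAt ℂ zC w := by
    intro w hw
    have h1 : DifferentiableAt ℂ (fun s => (s - 1) * riemannZeta s) w :=
      (differentiableAt_id.sub_const 1).mul (differentiableAt_riemannZeta hw)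
    refine h1.congr_of_eventuallyEq ?_
    filter_upwards [isOpen_ne.mem_nhds hw] with z hz using zC_of_ne hz
  rcases eq_or_ne s 1 with rfl | hs
  · refine Complex.analyticAt_of_differentiable_on_punctured_nhds_of_continuousAt ?_ ?_
    · filter_upwards [self_mem_nhdsWithin] with z hz using hd z hz
    · unfold zC
      rw [continuousAt_update_same]
      exact riemannZeta_residue_one
  · have hopen : IsOpen {z : ℂ | z ≠ 1} := isOpen_ne
    have : DifferentiableOn ℂ zC {z : ℂ | z ≠ 1} := fun z hz =>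
      (hd z hz).differentiableWithinAt
    exact this.analyticAt (hopen.mem_nhds hs)

namespace SatakeSystem

variable {K : Type} [Field K] [NumberField K] {n : ℕ} {π : SatakeSystem K n}

lemma coeff_pkC (σ : K →+* ℂ) (s : ℂ) (x : Nat.Primes × ℕ) :
    (π.coeff σ x.1 (x.2 + 1) : ℂ) / ((x.1 : ℕ) : ℂ) ^ (((x.2 : ℂ) + 1) * s) =
      (π.old.T σ x : ℂ) * pkC s x := by
  have hp : ((x.1 : ℕ) : ℂ) ≠ 0 := by exact_mod_cast x.1.2.ne_zero
  have e1 : pkC s x = ((x.2 : ℂ) + 1)⁻¹ * (((x.1 : ℕ) : ℂ) ^ (((x.2 : ℂ) + 1) * s))⁻¹ := by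
    unfold pkC
    rw [Complex.cpow_def_of_ne_zero hp, ← Complex.exp_neg, Complex.natCast_log]
    congr 2
    ring
  have e2 : (π.coeff σ x.1 (x.2 + 1) : ℝ) = π.old.T σ x / ((x.2 : ℝ) + 1) := by
    unfold coeff H74E.SatakeSystem.T H74E.SatakeSystem.t
    by_cases hg : π.Good x.1
    · have hg' : π.old.Good x.1 := hg
      rw [if_pos hg, if_pos hg']
      push_cast
      rfl
    · have hg' : ¬ π.old.Good x.1 := hg
      rw [if_neg hg, if_neg hg']
      simp
  rw [e1, e2]
  push_cast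
  rw [div_eq_mul_inv, div_eq_mul_inv]
  ring

lemma summable_T (h : ∀ σ, π.old.RankinSelberg σ) (σ : K →+* ℂ) {s : ℝ} (hs : 1 < s) :
    Summable fun x => π.old.T σ x * pk s x := by
  have := (h σ).1 s hs
  simpa only [H74E.SatakeSystem.coeff_eq] using this

/-- The quotient as an exponential. -/
lemma prod_eq {g : (K →+* ℂ) → ℂ → ℂ} (h : π.RankinSelberg g) {s : ℂ} (hs : 1 < s.re)
    (hc : Summable fun x => π.old.c x * pk s.re x) (hb : Summable fun x => π.old.b x * pk s.re x) :
    ∏ σ, g σ s = zC s ^ Fintype.card (K →+* ℂ) * Complex.exp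
      ((∑' x, (π.old.c x : ℂ) * pkC s x) - (Fintype.card (K →+* ℂ) : ℂ) *
        ∑' x, (π.old.b x : ℂ) * pkC s x) := by
  have hs1 : s ≠ 1 := by
    rintro rfl
    simp at hs
  have hT : ∀ σ : K →+* ℂ, Summable fun x => (π.old.T σ x : ℂ) * pkC s x := fun σ =>
    summable_mul_pkC (fun x => H74E.SatakeSystem.T_nonneg σ x) (summable_T h.old σ hs)
  have hcC := summable_mul_pkC (fun x => H74E.SatakeSystem.c_nonneg x) hc
  have hbC := summable_mul_pkC (fun x => H74E.SatakeSystem.b_nonneg x) hb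
  have hpC : Summable fun x => pkC s x := by
    apply Summable.of_norm
    simp only [norm_pkC]
    exact summable_pk hs
  have e1 : ∀ σ : K →+* ℂ, g σ s = (s - 1) * Complex.exp (∑' x, (π.old.T σ x : ℂ) * pkC s x) := by
    intro σ
    rw [h.eq σ s hs]
    simp only [coeff_pkC]
  simp only [e1]
  rw [Finset.prod_mul_distrib, Finset.prod_const, Finset.card_univ, ← Complex.exp_sum,
    ← Summable.tsum_finsetSum fun σ _ => hT σ, zC_of_ne hs1, zeta_pkC hs, mul_pow,
    ← Complex.exp_nat_mul, mul_assoc, ← Complex.exp_add]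
  congr 2
  have e2 : ∀ x, ∑ σ : K →+* ℂ, (π.old.T σ x : ℂ) * pkC s x = (π.old.c x : ℂ) * pkC s x +
      (Fintype.card (K →+* ℂ) : ℂ) * pkC s x - (Fintype.card (K →+* ℂ) : ℂ) *
        ((π.old.b x : ℂ) * pkC s x) := by
    intro x
    rw [← Finset.sum_mul]
    have h1 := H74E.SatakeSystem.sum_T (π := π.old) x
    have h2 : ∑ σ : K →+* ℂ, (π.old.T σ x : ℂ) = ((∑ σ : K →+* ℂ, π.old.T σ x : ℝ) : ℂ) := by
      push_cast
      rfl
    rw [h2, h1]
    push_cast
    ring
  simp only [e2]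
  rw [(hcC.add (hpC.mul_left _)).tsum_sub (hbC.mul_left _), hcC.tsum_add (hpC.mul_left _),
    tsum_mul_left, tsum_mul_left]
  ring

/-- There are no zeros or poles to the right of the abscissa of convergence. -/
theorem order_eq_zero {g : (K →+* ℂ) → ℂ → ℂ} (h : π.RankinSelberg g) {x0 : ℝ} (hx0 : 0 < x0)
    (hz : Summable fun p : {p : ℕ // π.Good p ∧ (π.A p).trace = 0} => ((p : ℕ) : ℝ) ^ (-x0))
    {ρ : ℂ} (hρ : x0 < ρ.re) : ¬ ZeroOrPole g ρ := by
  have hb0 := summable_b0 hx0 hz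
  have hc := boot (H74E.SatakeSystem.posC h.old) hx0 hb0
  have hb : ∀ s, x0 < s → Summable fun x => π.old.b x * pk s x := fun s hs =>
    boot_b (H74E.SatakeSystem.posC h.old) hx0 hb0 s hs.le
  set d := Fintype.card (K →+* ℂ) with hd
  set U : Set ℂ := {z : ℂ | x0 < z.re} with hU
  have hUopen : IsOpen U := isOpen_lt continuous_const Complex.continuous_re
  have hUconn : IsPreconnected U := (convex_halfSpace_re_gt x0).isPreconnected
  set H : ℂ → ℂ := fun s => (∑' x, (π.old.c x : ℂ) * pkC s x) - (d : ℂ) *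
        ∑' x, (π.old.b x : ℂ) * pkC s x with hH
  have hHan : ∀ s ∈ U, AnalyticAt ℂ H s := by
    intro s hs
    exact (series_analytic (fun x => H74E.SatakeSystem.c_nonneg x) hc s hs).sub
      (analyticAt_const.mul (series_analytic (fun x => H74E.SatakeSystem.b_nonneg x) hb s hs))
  have hG1 : AnalyticOnNhd ℂ (fun s => ∏ σ, g σ s) U := by
    intro s hs
    have : AnalyticAt ℂ (∏ σ : K →+* ℂ, g σ) s :=
      Finset.analyticAt_prod _ fun σ _ => h.analytic σ s (by
        have : x0 < s.re := hs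
        linarith)
    refine this.congr ?_
    filter_upwards with τ
    rw [Finset.prod_apply]
  have hG2 : AnalyticOnNhd ℂ (fun s => zC s ^ d * Complex.exp (H s)) U := fun s hs =>
    ((zC_analytic s).pow d).mul (hHan s hs).cexp
  have hEq : Set.EqOn (fun s => ∏ σ, g σ s) (fun s => zC s ^ d * Complex.exp (H s)) U := by
    have hz0 : (((max x0 1 + 1 : ℝ)) : ℂ) ∈ U := by
      simp only [hU, Set.mem_ofPred_eq, Complex.ofReal_re]
      linarith [le_max_left x0 1]
    refine hG1.eqOn_of_preconnected_of_eventuallyEq hG2 hUconn hz0 ?_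
    have hopen1 : IsOpen {z : ℂ | max x0 1 < z.re} := isOpen_lt continuous_const Complex.continuous_re
    filter_upwards [hopen1.mem_nhds (show (((max x0 1 + 1 : ℝ)) : ℂ) ∈ {z : ℂ | max x0 1 < z.re} by
      simp only [Set.mem_ofPred_eq, Complex.ofReal_re]; linarith)] with s hs
    have hs' : max x0 1 < s.re := hs
    have h1 : x0 < s.re := lt_of_le_of_lt (le_max_left _ _) hs'
    exact prod_eq h (lt_of_le_of_lt (le_max_right _ _) hs') (hc _ h1) (hb _ h1)
  -- the zeros of `zC` are isolated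
  have hzne : ∀ᶠ z in 𝓝[≠] ρ, zC z ≠ 0 := by
    rcases (zC_analytic ρ).eventually_eq_zero_or_eventually_ne_zero with h0 | h0
    · exfalso
      have h1 : Set.EqOn zC 0 Set.univ :=
        AnalyticOnNhd.eqOn_zero_of_preconnected_of_eventuallyEq_zero
          (fun z _ => zC_analytic z) isPreconnected_univ (Set.mem_univ ρ) h0
      have h2 := h1 (Set.mem_univ (1 : ℂ))
      unfold zC at h2
      rw [Function.update_self] at h2
      exact one_ne_zero h2
    · exact h0
  -- the function is an exponential near `ρ`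
  have hev : (fun s => ∏ σ, g σ s / ((s - 1) * riemannZeta s)) =ᶠ[𝓝[≠] ρ]
      fun s => Complex.exp (H s) := by
    have hne1 : ∀ᶠ z in 𝓝[≠] ρ, z ≠ 1 := by
      rcases eq_or_ne ρ 1 with rfl | hρ1
      · exact self_mem_nhdsWithin
      · exact nhdsWithin_le_nhds (isOpen_ne.mem_nhds hρ1)
    have hUev : ∀ᶠ z in 𝓝[≠] ρ, z ∈ U :=
      nhdsWithin_le_nhds (hUopen.mem_nhds hρ)
    filter_upwards [hzne, hne1, hUev] with s h1 h2 h3
    rw [Finset.prod_div_distrib, Finset.prod_const, Finset.card_univ, ← zC_of_ne h2]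
    have h4 := hEq h3
    simp only at h4
    rw [h4, mul_div_assoc, mul_comm, div_mul_cancel₀]
    exact pow_ne_zero _ h1
  unfold ZeroOrPole
  rw [not_not, meromorphicOrderAt_congr hev]
  have han : AnalyticAt ℂ (fun s => Complex.exp (H s)) ρ := (hHan ρ hρ).cexp
  rw [han.meromorphicOrderAt_eq, han.analyticOrderAt_eq_zero.2 (Complex.exp_ne_zero _)]
  rfl

/-- The divergence to the left of the zeros and poles. -/
theorem partB {g : (K →+* ℂ) → ℂ → ℂ} (h : π.RankinSelberg g) {ρ : ℂ} (hρ : 0 < ρ.re)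
    (he : ZeroOrPole g ρ) {x : ℝ} (hx : x < ρ.re) : π.Diverges x := by
  intro hz
  set x0 := max x (ρ.re / 2) with hx0
  have h1 : 0 < x0 := lt_of_lt_of_le (by linarith) (le_max_right _ _)
  have h2 : x0 < ρ.re := max_lt hx (by linarith)
  refine order_eq_zero h h1 ?_ h2 he
  refine Summable.of_nonneg_of_le (fun p => by positivity) (fun p => ?_) hz
  have hp : (1 : ℝ) ≤ ((p : ℕ) : ℝ) := by exact_mod_cast p.2.1.1.one_lt.le
  exact Real.rpow_le_rpow_of_exponent_le hp (by linarith [le_max_left x (ρ.re / 2)])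

end SatakeSystem

end Pool.Agent.H74F
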