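import Mathlib

/-! Definitions for the statement: systems of Satake classes of rank `n` over a number field with
integral characteristic polynomials, and their Rankin-Selberg `L`-functions. -/

noncomputable section

namespace Pool.Agent.H74F

open ComplexConjugate

/-- A system of Satake classes of rank `n` with integral coefficients in the number field `K`:
invertible matrices `A p` over `K` for the primes `p` not dividing the level (only their
characteristic polynomials matter) such that the coefficients of the characteristic polynomials are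
algebraic integers, and such that for all embeddings `σ` of `K` the complex conjugate of
`σ (tr A p ^ k)` is `σ (tr A p ^ (-k))` (this is the case if the Satake classes `σ (A p)` are those of
a unitary representation). -/
structure SatakeSystem (K : Type) [Field K] [NumberField K] (n : ℕ) where
  /-- the level -/
  level : ℕ
  level_pos : 0 < level
  /-- the Satake classes -/
  A : ℕ → Matrix (Fin n) (Fin n) K
  det_ne_zero : ∀ p, p.Prime → ¬ p ∣ level → (A p).det ≠ 0
  integral : ∀ p, p.Prime → ¬ p ∣ level → ∀ i, IsIntegral ℤ ((A p).charpoly.coeff i)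
  unitary : ∀ p, p.Prime → ¬ p ∣ level → ∀ k : ℕ, ∀ σ : K →+* ℂ,
    conj (σ (A p ^ k).trace) = σ ((A p)⁻¹ ^ k).trace

namespace SatakeSystem

variable {K : Type} [Field K] [NumberField K] {n : ℕ} (π : SatakeSystem K n)

/-- The prime `p` does not divide the level. -/
def Good (p : ℕ) : Prop := p.Prime ∧ ¬ p ∣ π.level

/-- The coefficient `|σ (tr A p ^ k)|^2 / k` of `p ^ (-ks)` in the logarithm of the (partial)
Rankin-Selberg `L`-function of the conjugate system `σ (A)` and its contragredient; it is `0` if `p`
divides the level. -/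
def coeff (σ : K →+* ℂ) (p k : ℕ) : ℝ := by
  classical exact if π.Good p then ‖σ (π.A p ^ k).trace‖ ^ 2 / k else 0

/-- The analytic properties of the (partial) Rankin-Selberg `L`-functions
`L_σ(s) = exp (∑_p ∑_k |σ (tr A p ^ k)|^2 / (k p ^ (ks)))` of the conjugate systems and their
contragredients (here `k = x.2 + 1`): the series converge for `s > 1` and `(s - 1) L_σ(s)` extends to
the function `g σ`, which is analytic on the half plane of real part `> 0`. -/
structure RankinSelberg (g : (K →+* ℂ) → ℂ → ℂ) : Prop where
  summable : ∀ σ, ∀ s : ℝ, 1 < s → Summable fun x : Nat.Primes × ℕ =>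
    π.coeff σ x.1 (x.2 + 1) / (x.1 : ℝ) ^ ((x.2 + 1) * s)
  analytic : ∀ σ, ∀ s : ℂ, 0 < s.re → AnalyticAt ℂ (g σ) s
  eq : ∀ σ, ∀ s : ℂ, 1 < s.re → g σ s = (s - 1) *
    Complex.exp (∑' x : Nat.Primes × ℕ, (π.coeff σ x.1 (x.2 + 1) : ℂ) / (x.1 : ℂ) ^ ((x.2 + 1) * s))

/-- The series of the `p ^ (-x)` over the primes `p` such that `tr A p = 0` diverges. -/
def Diverges (x : ℝ) : Prop :=
  ¬ Summable fun p : {p : ℕ // π.Good p ∧ (π.A p).trace = 0} => ((p : ℕ) : ℝ) ^ (-x)

end SatakeSystem

/-- The point `ρ` is a zero or a pole of the quotient `∏_σ L_σ(s) / ζ(s) ^ d`, `d = [K : ℚ]`; here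
`g σ` is the function `(s - 1) L_σ(s)`. -/
def ZeroOrPole {K : Type} [Field K] [NumberField K] (g : (K →+* ℂ) → ℂ → ℂ) (ρ : ℂ) : Prop :=
  meromorphicOrderAt (fun s => ∏ σ, g σ s / ((s - 1) * riemannZeta s)) ρ ≠ 0

end Pool.Agent.H74F
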